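import Mathlib
import Pool.Agent.H447R2.PE.Dich

set_option autoImplicit false

namespace Pool.Agent.Results.MP_a49cf6_nt.SumProductOrMeasure

open Real

/-- `π` is badly approximable up to the factor `log q / log log q`: there is `C > 0` with
`|π - p/q| ≥ C log log q / (q² log q)` for all integers `p` and `q ≥ 3`. -/
def BadlyApproximable : Prop :=
  ∃ C : ℝ, 0 < C ∧ ∀ (p : ℤ) (q : ℕ), 3 ≤ q →
    C * (log (log q) / ((q : ℝ) ^ 2 * log q)) ≤ |π - p / q|

/-- Either `π + e` and `π e` are both irrational, or `π` is badly approximable up to the factor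
`log q / log log q`. -/
theorem result :
    (Irrational (π + exp 1) ∧ Irrational (π * exp 1)) ∨ BadlyApproximable := by
  rcases Pool.Agent.H447R2.PE.indep_or_bound 2 (by norm_num) with h | h
  · left
    have h2 := Pool.Agent.H447R2.PE.indep_two h
    refine ⟨?_, ?_⟩
    · rintro ⟨q, hq⟩
      have := h2 (-q) 1 1 0 (by push_cast; rw [hq]; ring)
      exact absurd this.2.1 (by norm_num)
    · rintro ⟨q, hq⟩
      have := h2 (-q) 0 0 1 (by push_cast; rw [hq]; ring)
      exact absurd this.2.2.2 (by norm_num)
  · exact Or.inr h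

end Pool.Agent.Results.MP_a49cf6_nt.SumProductOrMeasure
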