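import Pool.Agent.H364R2.PiE

/-!
At least three of the five numbers `π + e`, `π e`, `π ^ e`, `e ^ e`, `π ^ π` are irrational, unless
`π ^ e`, `e ^ e` and `π ^ π` are all rational.
-/

namespace Pool.Agent.Results.MP_a49cf6_nt.ThreeIrrational

open Pool.Agent.H364R2.PiE

/-- at least three of the five numbers are irrational, unless the last three are rational -/
theorem result :
    (∃ s : Finset (Fin 5), s.card = 3 ∧ ∀ i ∈ s, Irrational ((![Real.pi + Real.exp 1,
      Real.pi * Real.exp 1, Real.pi ^ Real.exp 1, Real.exp 1 ^ Real.exp 1,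
      Real.pi ^ Real.pi] : Fin 5 → ℝ) i)) ∨
    (¬ Irrational (Real.pi ^ Real.exp 1) ∧ ¬ Irrational (Real.exp 1 ^ Real.exp 1) ∧
      ¬ Irrational (Real.pi ^ Real.pi)) := by
  classical
  have mk : ∀ i j k : Fin 5, ({i, j, k} : Finset (Fin 5)).card = 3 →
      Irrational ((![Real.pi + Real.exp 1, Real.pi * Real.exp 1, Real.pi ^ Real.exp 1,
        Real.exp 1 ^ Real.exp 1, Real.pi ^ Real.pi] : Fin 5 → ℝ) i) →
      Irrational ((![Real.pi + Real.exp 1, Real.pi * Real.exp 1, Real.pi ^ Real.exp 1,
        Real.exp 1 ^ Real.exp 1, Real.pi ^ Real.pi] : Fin 5 → ℝ) j) →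
      Irrational ((![Real.pi + Real.exp 1, Real.pi * Real.exp 1, Real.pi ^ Real.exp 1,
        Real.exp 1 ^ Real.exp 1, Real.pi ^ Real.pi] : Fin 5 → ℝ) k) →
      ∃ s : Finset (Fin 5), s.card = 3 ∧ ∀ i ∈ s, Irrational ((![Real.pi + Real.exp 1,
        Real.pi * Real.exp 1, Real.pi ^ Real.exp 1, Real.exp 1 ^ Real.exp 1,
        Real.pi ^ Real.pi] : Fin 5 → ℝ) i) := by
    intro i j k hc hi hj hk
    refine ⟨{i, j, k}, hc, ?_⟩
    intro l hl
    rw [Finset.mem_insert, Finset.mem_insert, Finset.mem_singleton] at hl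
    rcases hl with rfl | rfl | rfl
    · exact hi
    · exact hj
    · exact hk
  by_cases ha : Irrational (Real.pi + Real.exp 1)
  · by_cases hb : Irrational (Real.pi * Real.exp 1)
    · by_cases hc : Irrational (Real.pi ^ Real.exp 1)
      · exact Or.inl (mk 0 1 2 (by decide) ha hb hc)
      by_cases hd : Irrational (Real.exp 1 ^ Real.exp 1)
      · exact Or.inl (mk 0 1 3 (by decide) ha hb hd)
      by_cases hf : Irrational (Real.pi ^ Real.pi)
      · exact Or.inl (mk 0 1 4 (by decide) ha hb hf)
      exact Or.inr ⟨hc, hd, hf⟩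
    · left
      have hb' := rat_isAlgebraic hb
      by_cases hc : Irrational (Real.pi ^ Real.exp 1)
      · by_cases hd : Irrational (Real.exp 1 ^ Real.exp 1)
        · exact mk 0 2 3 (by decide) ha hc hd
        by_cases hf : Irrational (Real.pi ^ Real.pi)
        · exact mk 0 2 4 (by decide) ha hc hf
        exact (prod_ee_pipi hb' (rat_isAlgebraic hd) (rat_isAlgebraic hf)).elim
      · by_cases hd : Irrational (Real.exp 1 ^ Real.exp 1)
        · by_cases hf : Irrational (Real.pi ^ Real.pi)
          · exact mk 0 3 4 (by decide) ha hd hf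
          exact (prod_pie_pipi hb' (rat_isAlgebraic hc) (rat_isAlgebraic hf)).elim
        · exact absurd ⟨hb', rat_isAlgebraic hd, rat_isAlgebraic hc⟩ Pool.Agent.H364R2.N1
  · left
    have ha' := rat_isAlgebraic ha
    have hb : Irrational (Real.pi * Real.exp 1) := by
      by_contra hb
      exact sum_prod ha' (rat_isAlgebraic hb)
    have hd : Irrational (Real.exp 1 ^ Real.exp 1) := by
      by_contra hd
      exact sum_ee ha' (rat_isAlgebraic hd)
    by_cases hc : Irrational (Real.pi ^ Real.exp 1)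
    · exact mk 1 2 3 (by decide) hb hc hd
    by_cases hf : Irrational (Real.pi ^ Real.pi)
    · exact mk 1 3 4 (by decide) hb hd hf
    exact (sum_pow ha (rat_isAlgebraic hc) (rat_isAlgebraic hf)).elim

end Pool.Agent.Results.MP_a49cf6_nt.ThreeIrrational
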