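import Pool.Agent.H364R2.PiE

/-!
At least three of the five numbers `π + e`, `π e`, `π ^ e`, `e ^ e`, `π ^ π` are transcendental,
unless the algebraic ones among them are exactly `π ^ e`, `e ^ e`, `π ^ π` or exactly
`π + e`, `π ^ e`, `π ^ π`.
-/

namespace Pool.Agent.Results.MP_a49cf6_nt.ThreeTranscendental

open Pool.Agent.H364R2.PiE

/-- at least three of the five numbers are transcendental, with two possible exceptions, in each
of which exactly two of them are transcendental -/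
theorem result :
    (∃ s : Finset (Fin 5), s.card = 3 ∧ ∀ i ∈ s, Transcendental ℚ ((![Real.pi + Real.exp 1,
      Real.pi * Real.exp 1, Real.pi ^ Real.exp 1, Real.exp 1 ^ Real.exp 1,
      Real.pi ^ Real.pi] : Fin 5 → ℝ) i)) ∨
    (Transcendental ℚ (Real.pi + Real.exp 1) ∧ Transcendental ℚ (Real.pi * Real.exp 1) ∧
      IsAlgebraic ℚ (Real.pi ^ Real.exp 1) ∧ IsAlgebraic ℚ (Real.exp 1 ^ Real.exp 1) ∧
      IsAlgebraic ℚ (Real.pi ^ Real.pi)) ∨
    (IsAlgebraic ℚ (Real.pi + Real.exp 1) ∧ Transcendental ℚ (Real.pi * Real.exp 1) ∧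
      IsAlgebraic ℚ (Real.pi ^ Real.exp 1) ∧ Transcendental ℚ (Real.exp 1 ^ Real.exp 1) ∧
      IsAlgebraic ℚ (Real.pi ^ Real.pi)) := by
  classical
  have mk : ∀ i j k : Fin 5, ({i, j, k} : Finset (Fin 5)).card = 3 →
      Transcendental ℚ ((![Real.pi + Real.exp 1, Real.pi * Real.exp 1, Real.pi ^ Real.exp 1,
        Real.exp 1 ^ Real.exp 1, Real.pi ^ Real.pi] : Fin 5 → ℝ) i) →
      Transcendental ℚ ((![Real.pi + Real.exp 1, Real.pi * Real.exp 1, Real.pi ^ Real.exp 1,
        Real.exp 1 ^ Real.exp 1, Real.pi ^ Real.pi] : Fin 5 → ℝ) j) →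
      Transcendental ℚ ((![Real.pi + Real.exp 1, Real.pi * Real.exp 1, Real.pi ^ Real.exp 1,
        Real.exp 1 ^ Real.exp 1, Real.pi ^ Real.pi] : Fin 5 → ℝ) k) →
      ∃ s : Finset (Fin 5), s.card = 3 ∧ ∀ i ∈ s, Transcendental ℚ ((![Real.pi + Real.exp 1,
        Real.pi * Real.exp 1, Real.pi ^ Real.exp 1, Real.exp 1 ^ Real.exp 1,
        Real.pi ^ Real.pi] : Fin 5 → ℝ) i) := by
    intro i j k hc hi hj hk
    refine ⟨{i, j, k}, hc, ?_⟩
    intro l hl
    rw [Finset.mem_insert, Finset.mem_insert, Finset.mem_singleton] at hl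
    rcases hl with rfl | rfl | rfl
    · exact hi
    · exact hj
    · exact hk
  by_cases ha : IsAlgebraic ℚ (Real.pi + Real.exp 1)
  · have hb : Transcendental ℚ (Real.pi * Real.exp 1) := fun hb => sum_prod ha hb
    have hd : Transcendental ℚ (Real.exp 1 ^ Real.exp 1) := fun hd => sum_ee ha hd
    by_cases hc : IsAlgebraic ℚ (Real.pi ^ Real.exp 1)
    · by_cases hf : IsAlgebraic ℚ (Real.pi ^ Real.pi)
      · exact Or.inr (Or.inr ⟨ha, hb, hc, hd, hf⟩)
      · exact Or.inl (mk 1 3 4 (by decide) hb hd hf)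
    · exact Or.inl (mk 1 2 3 (by decide) hb hc hd)
  · by_cases hb : IsAlgebraic ℚ (Real.pi * Real.exp 1)
    · left
      by_cases hc : IsAlgebraic ℚ (Real.pi ^ Real.exp 1)
      · by_cases hd : IsAlgebraic ℚ (Real.exp 1 ^ Real.exp 1)
        · exact absurd ⟨hb, hd, hc⟩ Pool.Agent.H364R2.N1
        · by_cases hf : IsAlgebraic ℚ (Real.pi ^ Real.pi)
          · exact (prod_pie_pipi hb hc hf).elim
          · exact mk 0 3 4 (by decide) ha hd hf
      · by_cases hd : IsAlgebraic ℚ (Real.exp 1 ^ Real.exp 1)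
        · by_cases hf : IsAlgebraic ℚ (Real.pi ^ Real.pi)
          · exact (prod_ee_pipi hb hd hf).elim
          · exact mk 0 2 4 (by decide) ha hc hf
        · exact mk 0 2 3 (by decide) ha hc hd
    · by_cases hc : IsAlgebraic ℚ (Real.pi ^ Real.exp 1)
      · by_cases hd : IsAlgebraic ℚ (Real.exp 1 ^ Real.exp 1)
        · by_cases hf : IsAlgebraic ℚ (Real.pi ^ Real.pi)
          · exact Or.inr (Or.inl ⟨ha, hb, hc, hd, hf⟩)
          · exact Or.inl (mk 0 1 4 (by decide) ha hb hf)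
        · exact Or.inl (mk 0 1 3 (by decide) ha hb hd)
      · exact Or.inl (mk 0 1 2 (by decide) ha hb hc)

end Pool.Agent.Results.MP_a49cf6_nt.ThreeTranscendental
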